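import Mathlib
import Pool.Agent.H436R3.Fol.Val

/-!
# Discrete valuations extend to finite extensions and restrict (job EXT of MP_c8c12f_ag)
-/

set_option autoImplicit false
set_option linter.unusedSectionVars false
namespace Pool.Agent.TH969.C8_EXT
open Pool.Agent.H436R3.Fol

section restrict

variable {F Ω : Type} [Field F] [Algebra ℂ F] [Field Ω] [Algebra ℂ Ω] [Algebra F Ω]
    [IsScalarTower ℂ F Ω]

theorem ext_ne {f : F} (hf : f ≠ 0) : algebraMap F Ω f ≠ 0 :=
  (map_ne_zero_iff _ (algebraMap F Ω).injective).2 hf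

/-- the group of values on the subfield -/
def vals (v : DVal Ω) : AddSubgroup ℤ where
  carrier := {n | ∃ f : F, f ≠ 0 ∧ v.ord (algebraMap F Ω f) = n}
  add_mem' := by
    rintro a b ⟨f, hf, rfl⟩ ⟨g, hg, rfl⟩
    refine ⟨f * g, mul_ne_zero hf hg, ?_⟩
    rw [map_mul, v.map_mul _ _ (ext_ne hf) (ext_ne hg)]
  zero_mem' := ⟨1, one_ne_zero, by rw [map_one, v.ord_one]⟩
  neg_mem' := by
    rintro a ⟨f, hf, rfl⟩
    refine ⟨f⁻¹, inv_ne_zero hf, ?_⟩
    rw [map_inv₀, v.ord_inv (ext_ne hf)]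

theorem exists_val_ne [Algebra.IsAlgebraic F Ω] (v : DVal Ω) :
    ∃ f : F, f ≠ 0 ∧ v.ord (algebraMap F Ω f) ≠ 0 := by
  by_contra hcon
  push Not at hcon
  obtain ⟨g, hg0, hg⟩ := v.surj
  have hint : IsIntegral F g := (Algebra.IsAlgebraic.isAlgebraic (R := F) g).isIntegral
  have h0 : (minpoly F g).coeff 0 ≠ 0 := minpoly.coeff_zero_ne_zero hint hg0
  have hz := minpoly.aeval F g
  rw [Polynomial.aeval_eq_sum_range, Finset.sum_range_succ'] at hz
  simp only [pow_zero, Algebra.smul_def, mul_one] at hz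
  have hpos : v.Pos (∑ i ∈ Finset.range (minpoly F g).natDegree,
      algebraMap F Ω ((minpoly F g).coeff (i + 1)) * g ^ (i + 1)) := by
    refine Finset.sum_induction _ v.Pos (fun a b => v.pos_add) (Or.inl rfl) ?_
    intro i _
    by_cases hc : (minpoly F g).coeff (i + 1) = 0
    · left
      rw [hc, map_zero, zero_mul]
    · right
      rw [v.map_mul _ _ (ext_ne hc) (pow_ne_zero _ hg0), hcon _ hc, v.ord_pow hg0, hg]
      push_cast
      omega
  have h1 : algebraMap F Ω ((minpoly F g).coeff 0) =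
      -(∑ i ∈ Finset.range (minpoly F g).natDegree,
        algebraMap F Ω ((minpoly F g).coeff (i + 1)) * g ^ (i + 1)) := by
    rw [eq_neg_iff_add_eq_zero, add_comm]
    exact hz
  have h2 := hcon _ h0
  have h3 := ext_ne (Ω := Ω) h0
  rcases hpos with h | h
  · rw [h, neg_zero] at h1
    exact h3 h1
  · by_cases hs : (∑ i ∈ Finset.range (minpoly F g).natDegree,
        algebraMap F Ω ((minpoly F g).coeff (i + 1)) * g ^ (i + 1)) = 0
    · rw [hs, neg_zero] at h1
      exact h3 h1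
    · rw [h1, v.ord_neg hs] at h2
      omega

end restrict

/-- Discrete valuations restrict to subfields of finite degree. -/
theorem exists_restrict {F Ω : Type} [Field F] [Algebra ℂ F] [Field Ω] [Algebra ℂ Ω] [Algebra F Ω]
    [IsScalarTower ℂ F Ω] [Algebra.IsAlgebraic F Ω] (v : DVal Ω) :
    ∃ (w : DVal F) (e : ℕ), 0 < e ∧ ∀ f : F, f ≠ 0 → v.ord (algebraMap F Ω f) = e * w.ord f := by
  obtain ⟨a, ha⟩ := Int.subgroup_cyclic (vals (F := F) v)
  have hmem : ∀ f : F, f ≠ 0 → ∃ n : ℤ, n * a = v.ord (algebraMap F Ω f) := by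
    intro f hf
    have h1 : v.ord (algebraMap F Ω f) ∈ vals (F := F) v := ⟨f, hf, rfl⟩
    rw [ha, AddSubgroup.mem_closure_singleton] at h1
    obtain ⟨n, hn⟩ := h1
    exact ⟨n, by rw [← hn, smul_eq_mul]⟩
  have ha0 : a ≠ 0 := by
    rintro rfl
    obtain ⟨f, hf, h⟩ := exists_val_ne (F := F) v
    obtain ⟨n, hn⟩ := hmem f hf
    rw [mul_zero] at hn
    exact h hn.symm
  have hpos : 0 < a.natAbs := Int.natAbs_pos.2 ha0
  have hdvd : ∀ f : F, f ≠ 0 → (a.natAbs : ℤ) ∣ v.ord (algebraMap F Ω f) := by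
    intro f hf
    obtain ⟨n, hn⟩ := hmem f hf
    rw [Int.natCast_natAbs, abs_dvd]
    exact ⟨n, by rw [← hn, mul_comm]⟩
  have hpos' : (0 : ℤ) < a.natAbs := by exact_mod_cast hpos
  refine ⟨⟨fun f => v.ord (algebraMap F Ω f) / a.natAbs, ?_, ?_, ?_, ?_⟩, a.natAbs, hpos, ?_⟩
  · intro f g hf hg
    obtain ⟨x, hx⟩ := hdvd f hf
    obtain ⟨y, hy⟩ := hdvd g hg
    rw [map_mul, v.map_mul _ _ (ext_ne hf) (ext_ne hg), hx, hy, ← mul_add,
      Int.mul_ediv_cancel_left _ hpos'.ne', Int.mul_ediv_cancel_left _ hpos'.ne',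
      Int.mul_ediv_cancel_left _ hpos'.ne']
  · intro f g hf hg hfg
    have h1 := v.map_add _ _ (ext_ne (Ω := Ω) hf) (ext_ne hg)
      (by rw [← map_add]; exact ext_ne hfg)
    rw [← map_add] at h1
    rcases min_le_iff.1 h1 with h | h
    · exact (min_le_left _ _).trans (Int.ediv_le_ediv hpos' h)
    · exact (min_le_right _ _).trans (Int.ediv_le_ediv hpos' h)
  · have h1 : (a.natAbs : ℤ) ∈ vals (F := F) v := by
      rw [ha, AddSubgroup.mem_closure_singleton]
      rcases Int.natAbs_eq a with h | h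
      · exact ⟨1, by rw [one_smul, ← h]⟩
      · refine ⟨-1, ?_⟩
        rw [smul_eq_mul]
        omega
    obtain ⟨f, hf, h⟩ := h1
    exact ⟨f, hf, by rw [h, Int.ediv_self hpos'.ne']⟩
  · intro c hc
    rw [← IsScalarTower.algebraMap_apply, v.const c hc, Int.zero_ediv]
  · intro f hf
    rw [Int.mul_ediv_cancel' (hdvd f hf)]

section ext

variable {F : Type} [Field F] [Algebra ℂ F] (w : DVal F)

theorem O_unit {f : F} (hf : f ≠ 0) (h : w.ord f = 0) :
    ∃ u : w.Oˣ, ((u : w.O) : F) = f := by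
  refine ⟨⟨⟨f, Or.inr h.ge⟩, ⟨f⁻¹, Or.inr ?_⟩, ?_, ?_⟩, rfl⟩
  · rw [w.ord_inv hf, h, neg_zero]
  · exact Subtype.ext (mul_inv_cancel₀ hf)
  · exact Subtype.ext (inv_mul_cancel₀ hf)

theorem dvr : IsDiscreteValuationRing w.O := by
  obtain ⟨p, hp0, hp⟩ := w.surj
  have hpO : w.Reg p := Or.inr (by omega)
  let π : w.O := ⟨p, hpO⟩
  have hπ0 : π ≠ 0 := fun h => hp0 (congrArg Subtype.val h)
  have hunit : ∀ x : w.O, x ≠ 0 → (IsUnit x ↔ w.ord (x : F) = 0) := by
    intro x hx
    have hx' : (x : F) ≠ 0 := fun h => hx (Subtype.ext h)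
    constructor
    · rintro ⟨u, rfl⟩
      have h1 : ((u : w.O) : F) * ((u⁻¹ : w.Oˣ) : w.O) = 1 := by
        have := u.mul_inv
        exact congrArg Subtype.val this
      have hu' : (((u⁻¹ : w.Oˣ) : w.O) : F) ≠ 0 := right_ne_zero_of_mul_eq_one h1
      have h2 := w.map_mul _ _ hx' hu'
      rw [h1, w.ord_one] at h2
      have h3 := ((u : w.O).2 : w.Reg _).resolve_left hx'
      have h4 := (((u⁻¹ : w.Oˣ) : w.O).2 : w.Reg _).resolve_left hu'
      omega
    · intro h
      obtain ⟨u, hu⟩ := O_unit w hx' h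
      exact ⟨u, Subtype.ext hu⟩
  have hirr : Irreducible π := by
    refine ⟨?_, ?_⟩
    · rw [hunit π hπ0]
      change w.ord p ≠ 0
      omega
    · intro a b hab
      have ha0 : a ≠ 0 := by
        rintro rfl
        exact hπ0 (by rw [hab, zero_mul])
      have hb0 : b ≠ 0 := by
        rintro rfl
        exact hπ0 (by rw [hab, mul_zero])
      have ha' : (a : F) ≠ 0 := fun h => ha0 (Subtype.ext h)
      have hb' : (b : F) ≠ 0 := fun h => hb0 (Subtype.ext h)
      have h1 : p = (a : F) * b := congrArg Subtype.val hab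
      have h2 := w.map_mul _ _ ha' hb'
      rw [← h1, hp] at h2
      have h3 := (a.2 : w.Reg _).resolve_left ha'
      have h4 := (b.2 : w.Reg _).resolve_left hb'
      rw [hunit a ha0, hunit b hb0]
      omega
  refine IsDiscreteValuationRing.ofHasUnitMulPowIrreducibleFactorization ⟨π, hirr, ?_⟩
  intro x hx
  have hx' : (x : F) ≠ 0 := fun h => hx (Subtype.ext h)
  have h1 := (x.2 : w.Reg _).resolve_left hx'
  obtain ⟨n, hn⟩ := Int.eq_ofNat_of_zero_le h1
  have hq : (x : F) / p ^ n ≠ 0 := div_ne_zero hx' (pow_ne_zero _ hp0)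
  obtain ⟨u, hu⟩ := O_unit w hq (by
    rw [w.ord_div hx' (pow_ne_zero _ hp0), w.ord_pow hp0, hp, hn]
    simp)
  refine ⟨n, u, ?_⟩
  apply Subtype.ext
  change p ^ n * ((u : w.O) : F) = x
  rw [hu, mul_div_cancel₀ _ (pow_ne_zero _ hp0)]

theorem frac : IsFractionRing w.O F := by
  refine IsFractionRing.of_field w.O F fun z => ?_
  by_cases hz : z = 0
  · exact ⟨0, 1, by simp [hz]⟩
  by_cases h : 0 ≤ w.ord z
  · exact ⟨⟨z, Or.inr h⟩, 1, by
      change z = z / 1
      rw [div_one]⟩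
  · refine ⟨1, ⟨z⁻¹, Or.inr ?_⟩, ?_⟩
    · rw [w.ord_inv hz]
      omega
    · change z = 1 / z⁻¹
      rw [one_div, inv_inv]

end ext

section ofHeight

variable {Ω : Type} [Field Ω] [Algebra ℂ Ω] {B : Type} [CommRing B] [IsDedekindDomain B]
  [Algebra B Ω] [IsFractionRing B Ω]

open IsDedekindDomain WithZero

theorem val_ne (Q : HeightOneSpectrum B) {f : Ω} (hf : f ≠ 0) : Q.valuation Ω f ≠ 0 :=
  (Valuation.ne_zero_iff _).2 hf

/-- the discrete valuation of a height one prime of a Dedekind domain -/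
noncomputable def ofPrime (Q : HeightOneSpectrum B)
    (hC : ∀ c : ℂ, Q.valuation Ω (algebraMap ℂ Ω c) ≤ 1) : DVal Ω where
  ord f := -log (Q.valuation Ω f)
  map_mul f g hf hg := by
    rw [map_mul, log_mul (val_ne Q hf) (val_ne Q hg)]
    ring
  map_add f g hf hg hfg := by
    have h := (Q.valuation Ω).map_add f g
    rcases le_max_iff.1 h with h | h
    · have := (log_le_log (val_ne Q hfg) (val_ne Q hf)).2 h
      exact (min_le_left _ _).trans (by omega)
    · have := (log_le_log (val_ne Q hfg) (val_ne Q hg)).2 h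
      exact (min_le_right _ _).trans (by omega)
  surj := by
    obtain ⟨π, hπ⟩ := Q.valuation_exists_uniformizer Ω
    refine ⟨π, ?_, ?_⟩
    · rintro rfl
      rw [map_zero] at hπ
      exact (WithZero.exp_ne_zero hπ.symm).elim
    · rw [hπ, log_exp, neg_neg]
  const c hc := by
    have h1 := hC c
    have h2 := hC c⁻¹
    have hc' : algebraMap ℂ Ω c ≠ 0 := (map_ne_zero_iff _ (algebraMap ℂ Ω).injective).2 hc
    rw [map_inv₀, map_inv₀] at h2
    have h3 : Q.valuation Ω (algebraMap ℂ Ω c) = 1 := by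
      apply le_antisymm h1
      have h4 : (0 : WithZero (Multiplicative ℤ)) < Q.valuation Ω (algebraMap ℂ Ω c) :=
        zero_lt_iff.2 (val_ne Q hc')
      exact (inv_le_one₀ h4).1 h2
    rw [h3, log_one, neg_zero]

end ofHeight

/-- Discrete valuations extend to finite extensions. -/
theorem exists_ext {F Ω : Type} [Field F] [Algebra ℂ F] [Field Ω] [Algebra ℂ Ω] [Algebra F Ω]
    [IsScalarTower ℂ F Ω] [FiniteDimensional F Ω] (w : DVal F) :
    ∃ (v : DVal Ω) (e : ℕ), 0 < e ∧ ∀ f : F, f ≠ 0 → v.ord (algebraMap F Ω f) = e * w.ord f := by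
  classical
  have hdvr : IsDiscreteValuationRing w.O := dvr w
  have hfr : IsFractionRing w.O F := frac w
  have hchar : CharZero F := charZero_of_injective_algebraMap (algebraMap ℂ F).injective
  have hsep : Algebra.IsSeparable F Ω := inferInstance
  let B := integralClosure w.O Ω
  have hB : IsDedekindDomain B := integralClosure.isDedekindDomain w.O F (L := Ω)
  have hBf : IsFractionRing B Ω := integralClosure.isFractionRing_of_finite_extension F Ω
  have hinj : Function.Injective (algebraMap w.O B) := by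
    have h1 : Function.Injective (algebraMap w.O Ω) := by
      rw [IsScalarTower.algebraMap_eq w.O F Ω]
      exact (algebraMap F Ω).injective.comp Subtype.val_injective
    have h2 : (algebraMap w.O Ω : w.O → Ω) = (algebraMap B Ω) ∘ (algebraMap w.O B) := by
      funext x
      exact IsScalarTower.algebraMap_apply w.O B Ω x
    rw [h2] at h1
    exact Function.Injective.of_comp h1
  have hint : Algebra.IsIntegral w.O B := inferInstance
  obtain ⟨Q, hQ⟩ := Ideal.exists_maximal B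
  have hQc : (Q.comap (algebraMap w.O B)).IsMaximal :=
    Ideal.isMaximal_comap_of_isIntegral_of_isMaximal (R := w.O) Q
  have hQm : Q.comap (algebraMap w.O B) = IsLocalRing.maximalIdeal w.O :=
    IsLocalRing.eq_maximalIdeal hQc
  obtain ⟨p, hp0, hp⟩ := w.surj
  let π : w.O := ⟨p, Or.inr (by omega)⟩
  have hπ0 : π ≠ 0 := fun h => hp0 (congrArg Subtype.val h)
  have hπm : π ∈ IsLocalRing.maximalIdeal w.O := by
    rw [IsLocalRing.mem_maximalIdeal]
    rintro ⟨u, hu⟩
    have h1 : p * (((u⁻¹ : w.Oˣ) : w.O) : F) = 1 := by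
      have := u.mul_inv
      rw [hu] at this
      exact congrArg Subtype.val this
    have hu' : (((u⁻¹ : w.Oˣ) : w.O) : F) ≠ 0 := right_ne_zero_of_mul_eq_one h1
    have h2 := w.map_mul _ _ hp0 hu'
    rw [h1, w.ord_one] at h2
    have h4 := (((u⁻¹ : w.Oˣ) : w.O).2 : w.Reg _).resolve_left hu'
    omega
  have hπQ : algebraMap w.O B π ∈ Q := by
    rw [← hQm] at hπm
    exact hπm
  have hQ0 : Q ≠ ⊥ := by
    rintro rfl
    rw [Ideal.mem_bot] at hπQ
    exact hπ0 (hinj (by rw [hπQ, map_zero]))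
  let Q' : IsDedekindDomain.HeightOneSpectrum B := ⟨Q, hQ.isPrime, hQ0⟩
  have hle : ∀ x : w.O, Q'.valuation Ω (algebraMap F Ω x) ≤ 1 := by
    intro x
    have h1 : algebraMap F Ω (x : F) = algebraMap B Ω (algebraMap w.O B x) := by
      rw [← IsScalarTower.algebraMap_apply w.O B Ω x]
      rfl
    rw [h1]
    exact Q'.valuation_le_one _
  have hC : ∀ c : ℂ, Q'.valuation Ω (algebraMap ℂ Ω c) ≤ 1 := by
    intro c
    rw [IsScalarTower.algebraMap_apply ℂ F Ω]
    exact hle ⟨algebraMap ℂ F c, w.reg_const c⟩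
  let v : DVal Ω := ofPrime Q' hC
  have hv : ∀ f, v.ord f = -WithZero.log (Q'.valuation Ω f) := fun f => rfl
  have hunit : ∀ f : F, f ≠ 0 → w.ord f = 0 → v.ord (algebraMap F Ω f) = 0 := by
    intro f hf h0
    have h1 := hle ⟨f, Or.inr h0.ge⟩
    have h2 := hle ⟨f⁻¹, Or.inr (by rw [w.ord_inv hf]; omega)⟩
    change Q'.valuation Ω (algebraMap F Ω f) ≤ 1 at h1
    change Q'.valuation Ω (algebraMap F Ω f⁻¹) ≤ 1 at h2
    rw [map_inv₀, map_inv₀] at h2
    have h4 : (0 : WithZero (Multiplicative ℤ)) < Q'.valuation Ω (algebraMap F Ω f) :=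
      zero_lt_iff.2 (val_ne Q' (ext_ne hf))
    have h3 : Q'.valuation Ω (algebraMap F Ω f) = 1 := le_antisymm h1 ((inv_le_one₀ h4).1 h2)
    rw [hv, h3, WithZero.log_one, neg_zero]
  have hepos : 0 < v.ord (algebraMap F Ω p) := by
    have h1 : algebraMap F Ω p = algebraMap B Ω (algebraMap w.O B π) := by
      rw [← IsScalarTower.algebraMap_apply w.O B Ω π]
      rfl
    have h2 : Q'.valuation Ω (algebraMap F Ω p) < 1 := by
      rw [h1, Q'.valuation_lt_one_iff_mem]
      exact hπQ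
    have h3 := (WithZero.log_lt_log (val_ne Q' (ext_ne hp0)) one_ne_zero).2 h2
    rw [WithZero.log_one] at h3
    rw [hv]
    omega
  obtain ⟨e, he⟩ := Int.eq_ofNat_of_zero_le hepos.le
  refine ⟨v, e, by omega, ?_⟩
  intro f hf
  have hq : f / p ^ w.ord f ≠ 0 := div_ne_zero hf (zpow_ne_zero _ hp0)
  have h1 : w.ord (f / p ^ w.ord f) = 0 := by
    rw [w.ord_div hf (zpow_ne_zero _ hp0), w.ord_zpow hp0, hp]
    ring
  have h2 := hunit _ hq h1
  rw [map_div₀, map_zpow₀, v.ord_div (ext_ne hf) (zpow_ne_zero _ (ext_ne hp0)),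
    v.ord_zpow (ext_ne hp0), he] at h2
  have : (Int.ofNat e) = (e : ℤ) := rfl
  rw [mul_comm (e : ℤ)]
  linarith

end Pool.Agent.TH969.C8_EXT
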